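import Pool.Agent.Run7.h723.OG.Iface2

/-!
# Oriented domination game (helper723), piece N10B: ten vertices, few vertices of small degree
-/

set_option autoImplicit false

namespace Pool.Agent.Run7.h376.OG

open Pool.H723.OG

theorem mem_low {V : Type} [Fintype V] (G : SimpleGraph V) (d : ℕ) (v : V) : v ∈ low G d ↔ dg G v ≤ d := by
  unfold low
  simp

theorem h4_any : ∀ d : ℕ, 1 ≤ d → d ≤ 9 → h4 10 d ≤ 196 := by
  intro d h1 h2
  interval_cases d <;> decide

theorem h4_big : ∀ d : ℕ, 5 ≤ d → d ≤ 9 → h4 10 d ≤ 22 := by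
  intro d h1 h2
  interval_cases d <;> decide

/-- a vertex of degree at most two -/
theorem stepB (hCOST : S_COST) (hP : S_PAIR2) (hA : S_AV4) (hDC : S_DC) (V : Type) [Fintype V] [DecidableEq V]
    (G : SimpleGraph V) (hn : Fintype.card V = 10) (h1 : ∀ v, 1 ≤ dg G v) (hlow : (low G 2).card ≤ 1)
    (hw : ∀ x y z : V, x ≠ y → x ≠ z → y ≠ z → 4 ≤ w3 G x y z) (hL : ¬ Le G 4) : ∀ v, 3 ≤ dg G v := by
  intro u
  by_contra hu
  have hu2 : dg G u ≤ 2 := by omega
  have h9 : ∀ v, dg G v ≤ 9 := by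
    intro v
    have := hDC V G v
    omega
  have h5 : ∀ v, v ≠ u → 5 ≤ dg G v := by
    intro v hv
    have hv3 : 3 ≤ dg G v := by
      by_contra hcon
      have hv2 : dg G v ≤ 2 := by omega
      have h2 : ({u, v} : Finset V) ⊆ low G 2 := by
        intro x hx
        rw [Finset.mem_insert, Finset.mem_singleton] at hx
        rcases hx with rfl | rfl
        · exact (mem_low G 2 _).2 hu2
        · exact (mem_low G 2 _).2 hv2
      have h3 := Finset.card_le_card h2
      rw [Finset.card_pair hv.symm] at h3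
      omega
    by_contra hcon
    rcases hP V G u v (by omega) hw hv.symm (h1 u) (h1 v) (by omega) (by omega) with h | h
    · exact hL h
    · omega
  obtain ⟨D, hD⟩ := hA V G (by omega)
  rw [hn] at hD
  have hs : ∑ v, h4 10 (dg G v) ≤ 394 := by
    rw [← Finset.add_sum_erase _ _ (Finset.mem_univ u)]
    have e1 := h4_any (dg G u) (h1 u) (h9 u)
    have e2 : ∑ v ∈ Finset.univ.erase u, h4 10 (dg G v) ≤ (Finset.univ.erase u).card • 22 := by
      apply Finset.sum_le_card_nsmul
      intro v hv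
      exact h4_big (dg G v) (h5 v (Finset.ne_of_mem_erase hv)) (h9 v)
    rw [Finset.card_erase_of_mem (Finset.mem_univ u), Finset.card_univ, hn] at e2
    simp at e2
    omega
  have e3 : (10 : ℕ).choose 4 = 210 := by decide
  rw [e3] at hD
  apply hL
  apply hCOST V G D 4
  omega

/-- many vertices of degree three -/
theorem stepE (hP : S_PAIR2) (hT : S_TW3) (V : Type) [Fintype V] [DecidableEq V]
    (G : SimpleGraph V) (hn : Fintype.card V = 10) (h3 : ∀ v, 3 ≤ dg G v) (hlow : 3 ≤ (low G 3).card)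
    (hw : ∀ x y z : V, x ≠ y → x ≠ z → y ≠ z → 4 ≤ w3 G x y z) : Le G 4 := by
  by_contra hL
  apply hL
  apply hT V G hn hw h3 hlow
  intro x y hx hy
  by_cases hxy : x = y
  · subst hxy
    exact fun v => Iff.rfl
  · rcases hP V G x y (by omega) hw hxy (by omega) (by omega) (by omega) (by omega) with h | h
    · exact absurd h hL
    · exact h.2.2

theorem h4_pair : ∀ d : ℕ, 3 ≤ d → d ≤ 6 → h4 10 d + h4 10 (9 - d) ≤
    72 + (24 * (if d ≤ 3 then 1 else 0) + 24 * (if 9 - d ≤ 3 then 1 else 0)) := by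
  intro d h1 h2
  interval_cases d <;> decide

theorem t_N10B (hCOST : S_COST) (hTRI : S_TRI) (hP : S_PAIR2) (hT : S_TW3) (hA : S_AV4) (hDC : S_DC) : S_N10B := by
  classical
  intro V _ _ G hn h1 h1' hlow hlow'
  by_contra hcon
  push Not at hcon
  obtain ⟨hL, hL'⟩ := hcon
  have hw : ∀ x y z : V, x ≠ y → x ≠ z → y ≠ z → 4 ≤ w3 G x y z := by
    intro x y z hxy hxz hyz
    by_contra h
    apply hL'
    exact hTRI V G x y z 1 hxy hxz hyz (by unfold w3 at h; omega)
  have hw' : ∀ x y z : V, x ≠ y → x ≠ z → y ≠ z → 4 ≤ w3 Gᶜ x y z := by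
    intro x y z hxy hxz hyz
    by_contra h
    apply hL
    have := hTRI V Gᶜ x y z 1 hxy hxz hyz (by unfold w3 at h; omega)
    rw [compl_compl] at this
    exact this
  have d3 := stepB hCOST hP hA hDC V G hn h1 hlow hw hL
  have d3' := stepB hCOST hP hA hDC V Gᶜ hn h1' hlow' hw' hL'
  have hdc : ∀ v, dg Gᶜ v = 9 - dg G v ∧ dg G v ≤ 6 := by
    intro v
    have e1 := hDC V G v
    have e2 := d3 v
    have e3 := d3' v
    omega
  obtain ⟨D, hD⟩ := hA V G (by omega)
  obtain ⟨D', hD'⟩ := hA V Gᶜ (by omega)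
  rw [hn] at hD hD'
  have e3 : (10 : ℕ).choose 4 = 210 := by decide
  rw [e3] at hD hD'
  have c1 : 10 ≤ cost2 G D := by
    by_contra h
    exact hL (hCOST V G D 4 (by omega))
  have c2 : 10 ≤ cost2 Gᶜ D' := by
    by_contra h
    exact hL' (hCOST V Gᶜ D' 4 (by omega))
  have hs : ∑ v, h4 10 (dg G v) + ∑ v, h4 10 (dg Gᶜ v) ≤ 720 + 24 * (low G 3).card + 24 * (low Gᶜ 3).card := by
    rw [← Finset.sum_add_distrib]
    have e4 : ∑ v, (h4 10 (dg G v) + h4 10 (dg Gᶜ v)) ≤
        ∑ v, (72 + (24 * (if dg G v ≤ 3 then 1 else 0) + 24 * (if dg Gᶜ v ≤ 3 then 1 else 0))) := by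
      apply Finset.sum_le_sum
      intro v _
      obtain ⟨e5, e6⟩ := hdc v
      rw [e5]
      exact h4_pair (dg G v) (d3 v) e6
    have e7 : ∀ H : SimpleGraph V, ∑ v, (if dg H v ≤ 3 then 1 else 0) = (low H 3).card := by
      intro H
      rw [Finset.sum_boole]
      have e8 : (Finset.univ.filter (fun v => dg H v ≤ 3)) = low H 3 := by
        ext v
        rw [mem_low]
        simp
      rw [e8]
      simp
    refine e4.trans (le_of_eq ?_)
    rw [Finset.sum_add_distrib, Finset.sum_add_distrib, ← Finset.mul_sum, ← Finset.mul_sum, e7, e7, Finset.sum_const,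
      Finset.card_univ, hn]
    simp
    ring
  by_cases hc : 3 ≤ (low G 3).card
  · exact hL (stepE hP hT V G hn d3 hc hw)
  · by_cases hc' : 3 ≤ (low Gᶜ 3).card
    · exact hL' (stepE hP hT V Gᶜ hn d3' hc' hw')
    · omega

end Pool.Agent.Run7.h376.OG
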